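import Mathlib
import Pool.Agent.H892.KT.Stm

/-!
# The derivative of the forward iterates at `0` (helper729 for helper892)
-/

set_option autoImplicit false

open Filter Topology Set

namespace Pool.Agent.H729.KT

open Pool.Agent.H892.KT

/-- the derivative of `bA` at `0` -/
theorem fd_bA : HasFDerivAt bA
    ((0 : ℂ × ℂ →L[ℂ] ℂ).prod (ContinuousLinearMap.snd ℂ ℂ ℂ)) (0 : ℂ × ℂ) := by
  have h1 : HasFDerivAt (fun p : ℂ × ℂ => p.1 * p.2)
      ((0 : ℂ × ℂ).1 • ContinuousLinearMap.snd ℂ ℂ ℂ + (0 : ℂ × ℂ).2 • ContinuousLinearMap.fst ℂ ℂ ℂ)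
      (0 : ℂ × ℂ) := hasFDerivAt_fst.mul hasFDerivAt_snd
  have e : ((0 : ℂ × ℂ).1 • ContinuousLinearMap.snd ℂ ℂ ℂ + (0 : ℂ × ℂ).2 • ContinuousLinearMap.fst ℂ ℂ ℂ) =
      (0 : ℂ × ℂ →L[ℂ] ℂ) := by
    refine ContinuousLinearMap.ext fun v => ?_
    show (0 : ℂ) • v.2 + (0 : ℂ) • v.1 = 0
    rw [zero_smul, zero_smul, add_zero]
  rw [e] at h1
  exact h1.prodMk hasFDerivAt_snd

theorem fd_one {n : ℕ} (K : KatoData n) (i : ZMod n) :
    HasFDerivAt (fun y => bA (K.σ i y))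
      (((0 : ℂ × ℂ →L[ℂ] ℂ).prod (ContinuousLinearMap.snd ℂ ℂ ℂ)).comp (fderiv ℂ (K.σ i) 0)) 0 := by
  have h1 : HasFDerivAt (K.σ i) (fderiv ℂ (K.σ i) 0) 0 :=
    ((K.diff i).differentiableAt ((K.isOpen_U i).mem_nhds (K.zero_mem i))).hasFDerivAt
  have h2 : HasFDerivAt bA ((0 : ℂ × ℂ →L[ℂ] ℂ).prod (ContinuousLinearMap.snd ℂ ℂ ℂ)) (K.σ i 0) := by
    rw [K.map_zero i]
    exact fd_bA
  exact h2.comp 0 h1

theorem fd_lin {n : ℕ} (K : KatoData n) (i : ZMod n) (c : ℂ) :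
    (fderiv ℂ (K.σ i) 0 (0, c)).2 = c * (fderiv ℂ (K.σ i) 0 (0, 1)).2 := by
  have e : ((0 : ℂ), c) = c • ((0 : ℂ), (1 : ℂ)) := by
    ext
    · simp
    · simp
  rw [e, map_smul]
  simp

theorem t_FD : S_FD := by
  intro n _ K k
  induction k with
  | zero =>
    intro i
    refine ⟨_, fd_one K i, fun v => ?_⟩
    simp
  | succ k ih =>
    intro i
    obtain ⟨A, hA, hv⟩ := ih (i + 1)
    have h0 : bA (K.σ i 0) = 0 := by
      rw [K.map_zero i]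
      ext
      · simp [bA]
      · simp [bA]
    have hA' : HasFDerivAt (fun y => orb K.σ (k + 1) (i + 1) y) A (bA (K.σ i 0)) := by
      rw [h0]
      exact hA
    refine ⟨_, hA'.comp 0 (fd_one K i), fun v => ?_⟩
    rw [ContinuousLinearMap.comp_apply, hv, ContinuousLinearMap.comp_apply]
    have e1 : ((0 : ℂ × ℂ →L[ℂ] ℂ).prod (ContinuousLinearMap.snd ℂ ℂ ℂ)) (fderiv ℂ (K.σ i) 0 v) =
        (0, (fderiv ℂ (K.σ i) 0 v).2) := by simp
    rw [e1, fd_lin, Finset.prod_range_succ']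
    have e2 : ∀ j : ℕ, i + 1 + ((j + 1 : ℕ) : ZMod n) = i + 1 + 1 + (j : ZMod n) := by
      intro j
      push_cast
      ring
    have e3 : i + 1 + ((0 : ℕ) : ZMod n) = i + 1 := by simp
    rw [e3]
    simp only [e2]
    ext
    · rfl
    · show (fderiv ℂ (K.σ i) 0 v).2 * (fderiv ℂ (K.σ (i + 1)) 0 (0, 1)).2 * _ = (fderiv ℂ (K.σ i) 0 v).2 * (_ * _)
      ring

end Pool.Agent.H729.KT
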